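import Pool.Agent.W973.IP.FDefs

/-!
# Isolated points of semialgebraic sets: correctness of the reduction
-/

set_option autoImplicit false

namespace Pool.Agent.W212.IP

open Pool.Agent.W973.IP Pool.Agent.NPC Pool.Agent.NPC.ER Pool.Agent.NPC.H612

theorem inv_eq (K : ℕ) : (2 ^ (2 ^ K) : ℝ)⁻¹ = (1 / 2) ^ 2 ^ K := by
  rw [one_div, inv_pow]

theorem inv_eq' (K b : ℕ) : ((2 ^ (2 ^ K) : ℝ)⁻¹) ^ (2 ^ b) = (1 / 2) ^ 2 ^ (K + b) := by
  rw [inv_eq, ← pow_mul, ← pow_add]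

/-- Meaning of `finF`. -/
theorem finF_iff (h6 : S_BODY) (h7 : S_CH) (E : List ℕ) (S : List ER.Con) (r : ℕ) (x : ℕ → ℝ) :
    (finF E S r).Holds x ↔ Chains (nn S) r x ∧ FJx E S r x ∧ x (nm 9 0 0) = 1 / 2 ∧
      (∀ t ≤ KK E S + bb (nn S), x (nm 9 t 0) = x (nm 9 0 0) ^ 2 ^ t) ∧
      x (nm 0 0 0) = x (nm 9 (KK E S) 0) ∧ x (nm 1 0 0) = x (nm 9 (KK E S + bb (nn S)) 0) := by
  unfold finF
  rw [holds_conj]
  simp only [List.mem_cons, List.not_mem_nil, or_false, forall_eq_or_imp, forall_eq]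
  rw [h6, h7.2.2.2]
  have e1 : (Fm.eq (Tm.add (Tm.var (nm 9 0 0)) (Tm.var (nm 9 0 0))) Tm.one).Holds x ↔
      x (nm 9 0 0) = 1 / 2 := by
    show x (nm 9 0 0) + x (nm 9 0 0) = 1 ↔ _
    constructor
    · intro h; linarith
    · intro h; linarith
  have e2 : (Fm.eq cV (Tm.var (nm 9 (KK E S) 0))).Holds x ↔
      x (nm 0 0 0) = x (nm 9 (KK E S) 0) := Iff.rfl
  have e3 : (Fm.eq eV (Tm.var (nm 9 (KK E S + bb (nn S)) 0))).Holds x ↔
      x (nm 1 0 0) = x (nm 9 (KK E S + bb (nn S)) 0) := Iff.rfl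
  rw [e1, e2, e3, and_assoc]

theorem redT (h1 : S_ISO) (h2 : S_COMB) (h3 : S_DJP) (h4 : S_HP) (h5 : S_EARP) (h6 : S_BODY)
    (h7 : S_CH) (h8 : S_ASG) (_h9 : S_FV) (h10 : S_FV2) (h11 : S_GAPF) (h12 : S_FINF)
    (h13 : S_KF) (h14 : S_CORE) : S_RED := by
  intro p
  have hred : red p = isoInst (comb (FF p.1 (sysOf (Fm.not p.2)))
    (kF p.1 (sysOf (Fm.not p.2)))) := rfl
  rw [hred, h1, h5 p]
  generalize sysOf (Fm.not p.2) = S
  generalize p.1 = E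
  rw [h14 (nn S) (hP E S) (h4 E S).1 (h4 E S).2.1 (KK E S) (h11 E S)]
  have hfin : (sols (FF E S)).Finite := by
    refine (h3 _).1 ?_
    intro φ hφ
    obtain ⟨r, hr, rfl⟩ := List.mem_map.mp hφ
    exact h12 E S r (by have := List.mem_range.mp hr; omega)
  rw [h2 _ _ hfin, inv_eq', inv_eq]
  constructor
  · rintro ⟨r, hr, u, w, lam, v, hFJ, hG⟩
    obtain ⟨x, hxc, hxe, hxv, hxu, hxw, hxl, hx9, hch⟩ := h8 (nn S) r ((1 / 2) ^ 2 ^ (KK E S))
      ((1 / 2) ^ 2 ^ (KK E S + bb (nn S))) v (1 / 2) u w lam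
    have hfx : (finF E S r).Holds x := by
      rw [finF_iff h6 h7]
      refine ⟨hch, ?_, ?_, ?_, ?_, ?_⟩
      · unfold FJx
        rw [hxc, hxe, hxv]
        have e1 : (fun l : Fin (nn S) => x (nm 3 l 0)) = u := funext hxu
        have e2 : (fun (i : Fin (r + 1)) (j : Fin (nn S)) => x (nm 4 i j)) = w :=
          funext fun i => funext fun j => hxw i j
        have e3 : (fun i : Fin (r + 1) => x (nm 5 i 0)) = lam := funext hxl
        rw [e1, e2, e3]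
        exact hFJ
      · rw [hx9, pow_zero, pow_one]
      · intro t _
        rw [hx9 t, hx9 0, pow_zero, pow_one]
      · rw [hxc, hx9]
      · rw [hxe, hx9]
    obtain ⟨x', hx', hFF⟩ := (h3 _).2.2.1 (finF E S r)
      (List.mem_map.mpr ⟨r, List.mem_range.mpr (Nat.lt_succ_of_le hr), rfl⟩) x hfx
    obtain ⟨f1, f2, f3, f4⟩ := h10 E S r
    refine ⟨x', hFF, ?_⟩
    rw [h13 E S x' (fun t ht => (hx' _ (f4 t ht)).trans (hch.1 t ht))]
    rintro ⟨w', hw'⟩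
    rw [hx' _ f1, hx' _ f2, hxc, hxe] at hw'
    have e1 : (fun l : Fin (nn S) => x' (nm 3 l 0)) = u :=
      funext fun l => (hx' _ (f3 l l.2)).trans (hxu l)
    rw [e1] at hw'
    exact absurd hw' (not_le.mpr (hG w'))
  · rintro ⟨x, hFF, hno⟩
    obtain ⟨φ, hφ, hφx⟩ := (h3 _).2.1 x hFF
    obtain ⟨r, hr, rfl⟩ := List.mem_map.mp hφ
    have hr' : r ≤ nn S := by have := List.mem_range.mp hr; omega
    rw [finF_iff h6 h7] at hφx
    obtain ⟨hch, hFJ, h9, ht, hc, he⟩ := hφx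
    rw [h13 E S x hch.1] at hno
    have hc' : x (nm 0 0 0) = (1 / 2) ^ 2 ^ (KK E S) := by
      rw [hc, ht _ (by omega), h9]
    have he' : x (nm 1 0 0) = (1 / 2) ^ 2 ^ (KK E S + bb (nn S)) := by
      rw [he, ht _ le_rfl, h9]
    unfold FJx at hFJ
    rw [hc', he'] at hFJ hno
    refine ⟨r, hr', _, _, _, _, hFJ, ?_⟩
    intro w'
    by_contra hcon
    exact hno ⟨w', not_lt.mp hcon⟩

end Pool.Agent.W212.IP
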